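import Mathlib
import Pool.Graph.R_seed8.Y876.HS.Fin
import Pool.Agent.Helper50.SP.Dist
import Pool.Agent.Helper50.SP.ForSet

/-! The distribution on the exact patterns in a set of `K` multipliers: the forms `d t + 1`
(after `Pool.Agent.Helper50.SP.for_set`). -/

set_option autoImplicit false

open Finset Filter

namespace Pool.Agent.Helper54.SM

open Pool.Agent.H95R2.BG.LF (AdmissibleL)
open Pool.Agent.Y876.HS (GX mem_GX pat mem_pat BB)
open Pool.Agent.Helper50.SP (sum_push dist)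

/-- `t ≡ a (mod q)`, all `d t + 1`, `d ∈ P`, are prime, and there is no other prime `p` such that
`(p - 1) / t` is a fraction `j / i` with `i, j ≤ R` -/
def Exactly (q a R : ℕ) (P : Finset ℕ) (t : ℕ) : Prop :=
  t ≡ a [MOD q] ∧ (∀ d ∈ P, (d * t + 1).Prime) ∧
    ∀ p i j : ℕ, p.Prime → 1 ≤ i → i ≤ R → 1 ≤ j → j ≤ R → i * (p - 1) = j * t → ∃ d ∈ P, p = d * t + 1

/-- the number of the `t ≤ x` at which `P` is an exact pattern -/
noncomputable def count (q a R : ℕ) (P : Finset ℕ) (x : ℝ) : ℕ :=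
  Set.ncard {t : ℕ | (t : ℝ) ≤ x ∧ Exactly q a R P t}

/-- a residue class in the class of `a` modulo `q` in which all `d t + 1` are prime to all small numbers -/
theorem exists_class (S : Finset ℕ) (q a : ℕ) (hcop : ∀ d ∈ S, Nat.Coprime (d * a + 1) q) (R : ℕ) :
    ∃ a₁ : ℕ, a₁ ≡ a [MOD q] ∧ ∀ d ∈ S, ∀ p : ℕ, p.Prime → p ∣ q * R.factorial → ¬ p ∣ d * a₁ + 1 := by
  classical
  obtain ⟨N, hN⟩ : ∃ N : ℕ, N = ∏ p ∈ (Icc 1 R).filter (fun p => p.Prime ∧ ¬ p ∣ q), p := ⟨_, rfl⟩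
  have hco : Nat.Coprime q N := by
    rw [hN]
    apply Nat.Coprime.prod_right
    intro p hp
    obtain ⟨-, hp1, hp2⟩ := mem_filter.1 hp
    exact ((Nat.Prime.coprime_iff_not_dvd hp1).2 hp2).symm
  obtain ⟨a₁, h1, h2⟩ := Nat.chineseRemainder hco a 0
  refine ⟨a₁, h1, fun d hd p hp hpq hpd => ?_⟩
  by_cases hq : p ∣ q
  · have h3 : a₁ ≡ a [MOD p] := h1.of_dvd hq
    have h4 : d * a₁ + 1 ≡ d * a + 1 [MOD p] := (h3.mul_left d).add_right 1
    have h5 : p ∣ d * a + 1 := (Nat.ModEq.dvd_iff h4 dvd_rfl).1 hpd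
    have h6 : p ∣ 1 := by
      rw [← hcop d hd]
      exact Nat.dvd_gcd h5 hq
    exact hp.one_lt.ne' (Nat.dvd_one.1 h6)
  · have h3 : p ∣ R.factorial := by
      rcases (Nat.Prime.dvd_mul hp).1 hpq with h | h
      · exact absurd h hq
      · exact h
    have h4 : p ≤ R := (Nat.Prime.dvd_factorial hp).1 h3
    have h5 : p ∣ N := by
      rw [hN]
      apply Finset.dvd_prod_of_mem (fun p => p)
      rw [mem_filter, mem_Icc]
      exact ⟨⟨hp.one_lt.le, h4⟩, hp, hq⟩
    have h6 : p ∣ a₁ := h5.trans ((Nat.modEq_zero_iff_dvd).1 h2)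
    have h7 : p ∣ 1 := (Nat.dvd_add_right (h6.mul_left d)).1 hpd
    exact hp.one_lt.ne' (Nat.dvd_one.1 h7)

theorem for_set (m r K : ℕ) (hm : 2 ≤ m) (hr : 1 ≤ r) (hrm : r ≤ m)
    (hK1 : 4 * (m : ℝ) + 29 / 50 ≤ Real.log K) (hK2 : Real.log K ≤ 4 * m + 1)
    (S : Finset ℕ) (hS : S.card = K) (hS0 : ∀ d ∈ S, 1 ≤ d)
    (q a : ℕ) (hq : 1 ≤ q) (hcop : ∀ d ∈ S, Nat.Coprime (d * a + 1) q) (R : ℕ) :
    ∀ᶠ x : ℝ in atTop, ∃ ν : Finset ℕ → ℝ, (∀ P, 0 ≤ ν P) ∧
      (∀ P, ν P ≠ 0 → P ⊆ S ∧ r ≤ P.card ∧ x / Real.log x ^ (BB K + 1) ≤ count q a R P x) ∧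
      ∑ P ∈ S.powerset, ν P = 1 ∧
      ∀ U : Finset ℕ, 1 ≤ U.card → U.card ≤ m →
        ∑ P ∈ S.powerset.filter (fun P => U ⊆ P), ν P ≤
          4632 * (m : ℝ) ^ 2 / ((m : ℝ) - r + 3 / 4) ^ 2 * (24 * (m : ℝ) * U.card / K) ^ U.card := by
  classical
  obtain ⟨f, hf, hfs⟩ : ∃ f : Fin K ↪ ℕ, (∀ i, f i ∈ S) ∧ ∀ v ∈ S, ∃ i, f i = v := by
    refine ⟨(S.equivFinOfCardEq hS).symm.toEmbedding.trans (Function.Embedding.subtype _), fun i => by simp, ?_⟩
    intro v hv
    exact ⟨S.equivFinOfCardEq hS ⟨v, hv⟩, by simp⟩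
  obtain ⟨a₁, ha₁, ha₂⟩ := exists_class S q a hcop R
  obtain ⟨Q, hQ⟩ : ∃ Q : ℕ, Q = q * R.factorial := ⟨_, rfl⟩
  rw [← hQ] at ha₂
  have hQ1 : 1 ≤ Q := by rw [hQ]; exact Nat.mul_pos hq (Nat.factorial_pos R)
  have hRQ : ∀ i, 1 ≤ i → i ≤ R → i ∣ Q := by
    intro i h1 h2
    rw [hQ]
    exact (Nat.dvd_factorial h1 h2).mul_left q
  obtain ⟨G₀, hG₀⟩ : ∃ G₀ : ℕ, G₀ = Q * R + Q * S.sup id := ⟨_, rfl⟩
  have hSG : ∀ d ∈ S, Q * d ≤ G₀ := by
    intro d hd
    have h1 : d ≤ S.sup id := le_sup (f := id) hd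
    have h2 : Q * d ≤ Q * S.sup id := Nat.mul_le_mul_left _ h1
    omega
  obtain ⟨G, hG⟩ : ∃ G : Finset ℕ, G = (Icc 1 G₀).filter (fun g => Q ∣ g * a₁) := ⟨_, rfl⟩
  have hGmem : ∀ g, g ∈ G ↔ (1 ≤ g ∧ g ≤ G₀) ∧ Q ∣ g * a₁ := by
    intro g
    rw [hG, mem_filter, mem_Icc]
  have hSGm : ∀ d ∈ S, Q * d ∈ G := by
    intro d hd
    rw [hGmem]
    exact ⟨⟨Nat.mul_pos hQ1 (hS0 d hd), hSG d hd⟩, (Dvd.intro _ rfl).mul_right a₁⟩
  -- the congruences
  obtain ⟨S', hS'⟩ : ∃ S' : Finset {g // g ∈ G}, S' = univ.filter (fun g => ∃ d ∈ S, Q * d = g.1) := ⟨_, rfl⟩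
  obtain ⟨W, ν₀, hW, h1, h2⟩ := Pool.Agent.TH779.Shat.congruences (fun g : {g // g ∈ G} => g.1)
    (fun g : {g // g ∈ G} => g.1 * a₁ / Q + 1) (fun g => ((hGmem g.1).1 g.2).1.1)
    (by
      intro g g' hgg h3
      obtain ⟨-, k, hk⟩ := (hGmem g.1).1 g.2
      obtain ⟨-, k', hk'⟩ := (hGmem g'.1).1 g'.2
      have e1 : g.1 * a₁ / Q = k := by rw [hk, Nat.mul_div_cancel_left _ hQ1]
      have e2 : g'.1 * a₁ / Q = k' := by rw [hk', Nat.mul_div_cancel_left _ hQ1]
      simp only [e1, e2] at h3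
      apply hgg
      apply Subtype.ext
      have e3 : g.1 * k' = g'.1 * k := by
        apply Nat.eq_of_mul_eq_mul_left hQ1
        calc Q * (g.1 * k') = g.1 * (Q * k') := by ring
          _ = g.1 * (g'.1 * a₁) := by rw [hk']
          _ = g'.1 * (g.1 * a₁) := by ring
          _ = g'.1 * (Q * k) := by rw [hk]
          _ = Q * (g'.1 * k) := by ring
      rw [mul_add, mul_add, e3] at h3
      omega) S' S'ᶜ disjoint_compl_left
  obtain ⟨ν, hν⟩ : ∃ ν : ℕ, ν = ν₀ + W := ⟨_, rfl⟩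
  have h1' : ∀ g : ℕ, g ∈ G → (∀ d ∈ S, Q * d ≠ g) → ∃ p : ℕ, p.Prime ∧ p ∣ W ∧ p ∣ g * ν + (g * a₁ / Q + 1) := by
    intro g hg hgS
    obtain ⟨p, hp, hpW, hp2⟩ := h1 ⟨g, hg⟩ (by
      rw [mem_compl, hS', mem_filter]
      rintro ⟨-, d, hd, hdg⟩
      exact hgS d hd hdg)
    refine ⟨p, hp, hpW, ?_⟩
    simp only at hp2
    have e : g * ν + (g * a₁ / Q + 1) = (g * ν₀ + (g * a₁ / Q + 1)) + W * g := by rw [hν]; ring
    rw [e]
    exact dvd_add hp2 (hpW.mul_right _)
  have hdiv : ∀ d : ℕ, Q * d * a₁ / Q = d * a₁ := by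
    intro d
    rw [mul_assoc, Nat.mul_div_cancel_left _ hQ1]
  have h2' : ∀ p : ℕ, p.Prime → p ∣ W → ∀ d ∈ S, ¬ p ∣ Q * d * ν + (d * a₁ + 1) := by
    intro p hp hpW d hd hpd
    apply h2 p hp hpW ⟨Q * d, hSGm d hd⟩ (by rw [hS', mem_filter]; exact ⟨mem_univ _, d, hd, rfl⟩)
    simp only [hdiv]
    have e : Q * d * ν + (d * a₁ + 1) = (Q * d * ν₀ + (d * a₁ + 1)) + W * (Q * d) := by rw [hν]; ring
    rw [e] at hpd
    exact (Nat.dvd_add_left (hpW.mul_right _)).1 hpd
  -- the forms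
  obtain ⟨A, hA⟩ : ∃ A : Fin K → ℕ, ∀ i, A i = f i * (Q * W) := ⟨_, fun _ => rfl⟩
  obtain ⟨B, hB⟩ : ∃ B : Fin K → ℕ, ∀ i, B i = f i * (Q * ν + a₁) + 1 := ⟨_, fun _ => rfl⟩
  have hQW : 1 ≤ Q * W := Nat.mul_pos hQ1 hW
  have hAdm : AdmissibleL A B := by
    refine ⟨fun i => by rw [hA]; exact Nat.mul_pos (hS0 _ (hf i)) hQW, fun i j hij h => ?_, fun p hp => ?_⟩
    · rw [hA, hA, hB, hB] at h
      have h3 : f i * (Q * W) = f j * (Q * W) := by
        have e1 : f i * (Q * W) * (f j * (Q * ν + a₁) + 1) =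
          f i * f j * (Q * W) * (Q * ν + a₁) + f i * (Q * W) := by ring
        have e2 : f j * (Q * W) * (f i * (Q * ν + a₁) + 1) =
          f i * f j * (Q * W) * (Q * ν + a₁) + f j * (Q * W) := by ring
        rw [e1, e2] at h
        omega
      exact hij (f.injective (Nat.eq_of_mul_eq_mul_right hQW h3))
    · by_cases hpW : p ∣ Q * W
      · refine ⟨0, fun i hd => ?_⟩
        rw [mul_zero, zero_add, hB] at hd
        rcases (Nat.Prime.dvd_mul hp).1 hpW with h3 | h3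
        · have e : f i * (Q * ν + a₁) + 1 = Q * (f i * ν) + (f i * a₁ + 1) := by ring
          rw [e] at hd
          exact ha₂ (f i) (hf i) p hp h3 ((Nat.dvd_add_right (h3.mul_right _)).1 hd)
        · apply h2' p hp h3 (f i) (hf i)
          have e : Q * f i * ν + (f i * a₁ + 1) = f i * (Q * ν + a₁) + 1 := by ring
          rw [e]
          exact hd
      · have : Fact p.Prime := ⟨hp⟩
        have hpQ : ¬ p ∣ Q := fun h => hpW (h.mul_right _)
        have hpW' : ¬ p ∣ W := fun h => hpW (h.mul_left _)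
        have hQZ : (Q : ZMod p) ≠ 0 := fun h => hpQ ((ZMod.natCast_eq_zero_iff _ _).1 h)
        have hWZ : (W : ZMod p) ≠ 0 := fun h => hpW' ((ZMod.natCast_eq_zero_iff _ _).1 h)
        refine ⟨((-(Q * ν + a₁ : ZMod p)) / (Q * W)).val, fun i hd => ?_⟩
        rw [hA, hB, ← ZMod.natCast_eq_zero_iff] at hd
        push_cast at hd
        rw [ZMod.natCast_zmod_val] at hd
        have e : (f i : ZMod p) * (Q * W) * (-(Q * ν + a₁) / (Q * W)) + (f i * (Q * ν + a₁) + 1) = 1 := by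
          field_simp
          ring
        rw [e] at hd
        exact one_ne_zero hd
  obtain ⟨c, hc⟩ : ∃ c : ℕ, c = Q * ν + a₁ := ⟨_, rfl⟩
  have hmain := dist m r K hm hr hrm hK1 hK2 A B hAdm
  have hQWr : (1 : ℝ) ≤ Q * W := by exact_mod_cast hQW
  have ht : Tendsto (fun x : ℝ => (x - c) / (3 * (Q * W))) atTop atTop :=
    (tendsto_atTop_add_const_right _ _ tendsto_id).atTop_div_const (by positivity)
  filter_upwards [ht.eventually hmain, Pool.Agent.Y876.HS.log_shift c (3 * (Q * W)) (Nat.cast_nonneg _)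
    (by linarith) (BB K), eventually_ge_atTop (c : ℝ)] with x hx hx2 hx3
  obtain ⟨ν', hν1, hν2, hν3, hν4⟩ := hx
  refine ⟨fun P => ∑ T ∈ univ.filter (fun T : Finset (Fin K) => T.map f = P), ν' T, fun P =>
    sum_nonneg fun T _ => hν1 T, fun P hP => ?_, ?_, fun U hU1 hU2 => ?_⟩
  · obtain ⟨T, hT, hT0⟩ := Finset.exists_ne_zero_of_sum_ne_zero hP
    obtain ⟨-, rfl⟩ := mem_filter.1 hT
    obtain ⟨hTG, hTr⟩ := hν2 T hT0
    refine ⟨?_, by rw [card_map]; exact hTr, ?_⟩
    · intro v hv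
      obtain ⟨i, _, rfl⟩ := Finset.mem_map.1 hv
      exact hf i
    refine hx2.trans (((mem_GX A B _ T).1 hTG).trans ?_)
    unfold count
    refine Nat.cast_le.2 ?_
    rw [← Set.ncard_coe_finset]
    refine Set.ncard_le_ncard_of_injOn (fun s => Q * (W * s + ν) + a₁) ?_ ?_ ?_
    · intro s hs
      have hX0 : 0 ≤ (x - c) / (3 * ((Q : ℝ) * W)) := div_nonneg (by linarith) (by positivity)
      rw [mem_coe, mem_filter, mem_Icc, Nat.le_floor_iff (by linarith)] at hs
      obtain ⟨⟨hs1, hs2⟩, hs3⟩ := hs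
      have hval : ∀ i, f i * (Q * (W * s + ν) + a₁) + 1 = A i * s + B i := by
        intro i
        rw [hA, hB]
        ring
      refine ⟨?_, ?_, ?_, ?_⟩
      · have h7 : 3 * ((x - c) / (3 * ((Q : ℝ) * W))) = (x - c) / (Q * W) := by field_simp
        rw [h7, le_div_iff₀ (by positivity)] at hs2
        rw [hc] at hs2
        push_cast at hs2 ⊢
        linarith
      · show Q * (W * s + ν) + a₁ ≡ a [MOD q]
        have h3 : Q * (W * s + ν) ≡ 0 [MOD q] := by
          rw [Nat.modEq_zero_iff_dvd, hQ, mul_assoc]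
          exact Dvd.intro _ rfl
        have h4 := h3.add ha₁
        rwa [zero_add] at h4
      · intro v hv
        obtain ⟨i, hi, rfl⟩ := Finset.mem_map.1 hv
        rw [← hs3, mem_pat] at hi
        show (f i * (Q * (W * s + ν) + a₁) + 1).Prime
        rw [hval]
        exact hi
      · intro p i j hp hi1 hiR hj1 hjR hpt
        have hpt' : i * (p - 1) = j * (Q * (W * s + ν) + a₁) := hpt
        obtain ⟨Q', hQ'⟩ := hRQ i hi1 hiR
        have hp1 : p - 1 + 1 = p := Nat.sub_add_cancel hp.one_lt.le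
        obtain ⟨p', hp'⟩ : ∃ p', p' = p - 1 := ⟨_, rfl⟩
        rw [← hp'] at hpt' hp1
        obtain ⟨g, hg⟩ : ∃ g, g = Q' * j := ⟨_, rfl⟩
        have hQ'1 : 1 ≤ Q' := by
          rcases Nat.eq_zero_or_pos Q' with h | h
          · rw [h, mul_zero] at hQ'
            omega
          · exact h
        have hg1 : 1 ≤ g := by rw [hg]; exact Nat.mul_pos hQ'1 hj1
        have hQQ' : Q' ≤ Q := by
          rw [hQ']
          exact Nat.le_mul_of_pos_left Q' hi1
        have hgG : g ≤ G₀ := by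
          have h3 : g ≤ Q * R := by rw [hg]; exact Nat.mul_le_mul hQQ' hjR
          omega
        have hgp : Q * p' = g * (Q * (W * s + ν) + a₁) := by
          calc Q * p' = Q' * (i * p') := by rw [hQ']; ring
            _ = Q' * (j * (Q * (W * s + ν) + a₁)) := by rw [hpt']
            _ = g * (Q * (W * s + ν) + a₁) := by rw [hg]; ring
        have hdvd : Q ∣ g * a₁ := by
          have h3 : g * (Q * (W * s + ν) + a₁) = Q * (g * (W * s + ν)) + g * a₁ := by ring
          rw [h3] at hgp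
          exact (Nat.dvd_add_right (Dvd.intro _ rfl)).1 (Dvd.intro _ hgp)
        obtain ⟨k, hk⟩ := hdvd
        have hpk : p' = g * (W * s + ν) + k := by
          apply Nat.eq_of_mul_eq_mul_left hQ1
          rw [hgp]
          calc g * (Q * (W * s + ν) + a₁) = Q * (g * (W * s + ν)) + g * a₁ := by ring
            _ = Q * (g * (W * s + ν)) + Q * k := by rw [hk]
            _ = Q * (g * (W * s + ν) + k) := by ring
        by_cases hgS : ∃ d ∈ S, Q * d = g
        · obtain ⟨d, hd, hdg⟩ := hgS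
          obtain ⟨i', rfl⟩ := hfs d hd
          have hpd : p = f i' * (Q * (W * s + ν) + a₁) + 1 := by
            rw [← hp1]
            congr 1
            apply Nat.eq_of_mul_eq_mul_left hQ1
            rw [hgp, ← hdg]
            ring
          refine ⟨f i', Finset.mem_map.2 ⟨i', ?_, rfl⟩, hpd⟩
          rw [← hs3, mem_pat, ← hval, ← hpd]
          exact hp
        · exfalso
          push Not at hgS
          have hgmem : g ∈ G := (hGmem g).2 ⟨⟨hg1, hgG⟩, k, hk⟩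
          obtain ⟨l, hl, hlW, hld⟩ := h1' g hgmem hgS
          have hkQ : g * a₁ / Q = k := by rw [hk, Nat.mul_div_cancel_left _ hQ1]
          rw [hkQ] at hld
          have h3 : l ∣ p := by
            have e : p = W * (g * s) + (g * ν + (k + 1)) := by rw [← hp1, hpk]; ring
            rw [e]
            exact dvd_add (hlW.mul_right _) hld
          have h4 : l = p := (Nat.prime_dvd_prime_iff_eq hl hp).1 h3
          have h5 : l ≤ W := Nat.le_of_dvd hW hlW
          have h6 : W ≤ ν := by omega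
          have h7 : 1 * (W * s + ν) ≤ g * (W * s + ν) := Nat.mul_le_mul_right _ hg1
          have h8 : 0 ≤ W * s := Nat.zero_le _
          omega
    · intro s _ s' _ h
      have h5 : Q * (W * s + ν) = Q * (W * s' + ν) := by
        have : Q * (W * s + ν) + a₁ = Q * (W * s' + ν) + a₁ := h
        omega
      have h6 := Nat.eq_of_mul_eq_mul_left hQ1 h5
      have h7 : W * s = W * s' := by omega
      exact Nat.eq_of_mul_eq_mul_left hW h7
    · apply (Set.finite_Iic ⌊x⌋₊).subset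
      intro n hn
      exact Nat.le_floor hn.1
  · have := sum_push S f hf ν' (fun _ => True)
    simp only [filter_true] at this
    rw [this, hν3]
  · rw [sum_push S f hf ν' (fun P => U ⊆ P)]
    by_cases hUS : U ⊆ S
    · obtain ⟨J, hJ⟩ : ∃ J : Finset (Fin K), J = univ.filter (fun i => f i ∈ U) := ⟨_, rfl⟩
      have hJU : J.map f = U := by
        ext v
        rw [Finset.mem_map]
        constructor
        · rintro ⟨i, hi, rfl⟩
          rw [hJ, mem_filter] at hi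
          exact hi.2
        · intro hv
          obtain ⟨i, rfl⟩ := hfs v (hUS hv)
          exact ⟨i, by rw [hJ, mem_filter]; exact ⟨mem_univ _, hv⟩, rfl⟩
      have hcard : J.card = U.card := by rw [← hJU, card_map]
      have h3 := hν4 J (by omega) (by omega)
      rw [hcard] at h3
      refine le_trans (le_of_eq ?_) h3
      congr 1
      ext T
      simp only [mem_filter, mem_univ, true_and]
      rw [← hJU, map_subset_map]
    · have e : univ.filter (fun T : Finset (Fin K) => U ⊆ T.map f) = ∅ := by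
        rw [filter_eq_empty_iff]
        intro T _ h
        apply hUS
        refine h.trans ?_
        intro v hv
        obtain ⟨i, _, rfl⟩ := Finset.mem_map.1 hv
        exact hf i
      rw [e, sum_empty]
      positivity

end Pool.Agent.Helper54.SM
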