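import Mathlib
import Pool.Agent.Helper85.IG.Growth

/-! Infinite exact patterns of multipliers, of maximal growth, inside arbitrary infinite sets
(after `Pool.Agent.Helper85.IG.dense_in_set`). -/

set_option autoImplicit false

namespace Pool.Agent.Helper54.SM

open Finset Filter Topology
open Pool.Agent.Helper85.IG (seq_growth)

theorem infinite_patterns (q a : ℕ) (hq : 1 ≤ q) (D : Set ℕ) (hD : D.Infinite) (hD1 : ∀ d ∈ D, 1 ≤ d)
    (hcop : ∀ d ∈ D, (d * a + 1).Coprime q) (ψ : ℕ → ℝ) (hψ : Tendsto ψ atTop atTop)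
    (𝒳 : Set ℕ) (h𝒳 : 𝒳.Infinite) :
    ∃ B ⊆ D, B.Infinite ∧ (∀ R : ℕ, {t : ℕ | t ≡ a [MOD q] ∧
        ∀ d : ℕ, 1 ≤ d → d ≤ R → ((d * t + 1).Prime ↔ d ∈ B)}.Infinite) ∧
      ∃ᶠ X : ℕ in atTop, X ∈ 𝒳 ∧
        Real.log (D ∩ Set.Iio X).ncard ≤ ψ X * ((B ∩ Set.Iio X).ncard : ℝ) := by
  classical
  obtain ⟨c₀, hc₀, hmain⟩ := seq_growth
  -- enumeration
  set b : ℕ → ℕ := Nat.nth (· ∈ D) with hb
  have hinfset : (Set.ofPred (· ∈ D)).Infinite := hD
  have hbmem : ∀ i, b i ∈ D := fun i => Nat.nth_mem_of_infinite hinfset i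
  have hbmono : StrictMono b := Nat.nth_strictMono hinfset
  have hcount' : ∀ X, (D ∩ Set.Iio X).ncard = Nat.count (· ∈ D) X := by
    intro X
    rw [Nat.count_eq_card_filter_range, ← Set.ncard_coe_finset]
    congr 1
    ext a
    simp [and_comm]
  have hcount : ∀ X, ∀ i, i < (D ∩ Set.Iio X).ncard → b i < X := by
    intro X i hi
    rw [hcount'] at hi
    exact Nat.nth_lt_of_lt_count hi
  -- the thresholds
  set 𝒩 : Set ℕ := {n | ∃ X ∈ 𝒳, n ≤ X ∧ n = (D ∩ Set.Iio X).ncard} with h𝒩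
  have hle : ∀ X, (D ∩ Set.Iio X).ncard ≤ X := by
    intro X
    calc (D ∩ Set.Iio X).ncard ≤ (Set.Iio X).ncard :=
          Set.ncard_le_ncard Set.inter_subset_right (Set.finite_Iio _)
      _ = X := by rw [← Nat.card_coe_set_eq]; simp
  have h𝒩inf : 𝒩.Infinite := by
    rw [Set.infinite_iff_exists_gt]
    intro k
    obtain ⟨X, hX, hkX⟩ := h𝒳.exists_gt (b k)
    refine ⟨(D ∩ Set.Iio X).ncard, ⟨X, hX, hle X, rfl⟩, ?_⟩
    rw [hcount']
    have h1 : Nat.count (· ∈ D) (b k) < Nat.count (· ∈ D) X :=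
      Nat.count_strict_mono (hbmem k) hkX
    have h2 : Nat.count (· ∈ D) (b k) = k := Nat.count_nth_of_infinite hinfset k
    omega
  have hL : ∀ t : ℕ, ∃ L : ℕ, t ≤ L ∧ (∀ X, L ≤ X → 1 / c₀ * 2 ^ t ≤ ψ X) ∧
      ∀ X : ℕ, L ≤ X → t * 2 ^ t / c₀ ≤ Real.log X := by
    intro t
    obtain ⟨L, hL⟩ := eventually_atTop.1 (hψ.eventually_ge_atTop (1 / c₀ * 2 ^ t))
    obtain ⟨L', hL'⟩ := eventually_atTop.1
      ((Real.tendsto_log_atTop.comp tendsto_natCast_atTop_atTop).eventually_ge_atTop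
        ((t : ℝ) * 2 ^ t / c₀))
    refine ⟨max t (max L L'), le_max_left _ _, fun X hX => hL X ?_, fun X hX => hL' X ?_⟩
    · exact ((le_max_left L L').trans (le_max_right _ _)).trans hX
    · exact ((le_max_right L L').trans (le_max_right _ _)).trans hX
  choose L hL1 hL2 hL3 using hL
  obtain ⟨I, hI1, hI2⟩ := hmain 𝒩 h𝒩inf L (fun i => ((b i * q : ℕ) : ℤ)) (fun i => ((b i * a + 1 : ℕ) : ℤ))
    (fun i => by
      have := Nat.mul_pos (hD1 _ (hbmem i)) hq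
      exact_mod_cast this)
    (by
      intro i j hij
      have h1 := (Prod.ext_iff.1 hij).1
      simp only at h1
      have h2 : b i * q = b j * q := by exact_mod_cast h1
      exact hbmono.injective (Nat.eq_of_mul_eq_mul_right hq h2))
    (by
      intro p hp
      by_cases hpq : p ∣ q
      · refine ⟨0, fun i hd => ?_⟩
        have h1 : p ∣ b i * a + 1 := by
          have h2 : (p : ℤ) ∣ ((b i * a + 1 : ℕ) : ℤ) := by simpa using hd
          exact Int.natCast_dvd_natCast.1 h2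
        have h2 := hcop (b i) (hbmem i)
        exact Nat.Prime.not_coprime_iff_dvd.2 ⟨p, hp, h1, hpq⟩ h2
      · have hfact := Fact.mk hp
        have hq0 : ((q : ℕ) : ZMod p) ≠ 0 := by
          rw [Ne, ZMod.natCast_eq_zero_iff]
          exact hpq
        refine ⟨((-(a : ZMod p)) / q : ZMod p).val, fun i hd => ?_⟩
        have h1 := (ZMod.intCast_zmod_eq_zero_iff_dvd _ _).2 hd
        push_cast at h1
        rw [ZMod.natCast_zmod_val, mul_assoc, mul_div_cancel₀ _ hq0] at h1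
        have h2 : (1 : ZMod p) = 0 := by
          linear_combination h1
        exact one_ne_zero h2)
  refine ⟨b '' I, ?_, ?_, ?_, ?_⟩
  · rintro _ ⟨i, _, rfl⟩
    exact hbmem i
  · apply Set.Infinite.image hbmono.injective.injOn
    intro hfin
    obtain ⟨t, hta, n, hn, hLn, hcn⟩ := (frequently_atTop.1 hI1) (I.ncard + 1)
    have h1 : (I ∩ Set.Iio n).ncard ≤ I.ncard := Set.ncard_le_ncard Set.inter_subset_left hfin
    have h2 : ((I ∩ Set.Iio n).ncard : ℝ) < t := by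
      have : (I ∩ Set.Iio n).ncard < t := by omega
      exact_mod_cast this
    have h3 := hL3 t n hLn
    rw [div_le_iff₀ hc₀] at h3
    have h4 : (2 : ℝ) ^ t * ((I ∩ Set.Iio n).ncard : ℝ) < 2 ^ t * t :=
      mul_lt_mul_of_pos_left h2 (by positivity)
    linarith
  · intro R
    have h1 := hI2 ((Finset.Icc 1 R).image (fun d : ℕ => (((d * q : ℕ) : ℤ), ((d * a + 1 : ℕ) : ℤ))))
      (by
        intro f hf
        obtain ⟨d, hd, rfl⟩ := Finset.mem_image.1 hf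
        change (1 : ℤ) ≤ ((d * q : ℕ) : ℤ)
        have := Nat.mul_pos (Finset.mem_Icc.1 hd).1 hq
        exact_mod_cast this)
    have hinj : Set.InjOn (fun n : ℕ => q * n + a) {n : ℕ | ∀ f ∈ (Finset.Icc 1 R).image
        (fun d : ℕ => (((d * q : ℕ) : ℤ), ((d * a + 1 : ℕ) : ℤ))), (Nat.Prime (f.1 * n + f.2).toNat ↔
          ∃ i ∈ I, f = (((b i * q : ℕ) : ℤ), ((b i * a + 1 : ℕ) : ℤ)))} := by
      intro n _ m _ hnm
      simp only at hnm
      have h2 : q * n = q * m := by omega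
      exact Nat.eq_of_mul_eq_mul_left (by omega) h2
    refine (h1.image hinj).mono ?_
    rintro _ ⟨n, hn, rfl⟩
    refine ⟨?_, ?_⟩
    · change (q * n + a) % q = a % q
      rw [Nat.mul_add_mod]
    · intro d hd1 hdR
      have h3 := hn (((d * q : ℕ) : ℤ), ((d * a + 1 : ℕ) : ℤ))
        (Finset.mem_image.2 ⟨d, Finset.mem_Icc.2 ⟨hd1, hdR⟩, rfl⟩)
      simp only at h3
      have e : (((d * q : ℕ) : ℤ) * n + ((d * a + 1 : ℕ) : ℤ)).toNat = d * (q * n + a) + 1 := by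
        have : ((d * q : ℕ) : ℤ) * n + ((d * a + 1 : ℕ) : ℤ) = ((d * (q * n + a) + 1 : ℕ) : ℤ) := by
          push_cast
          ring
        rw [this, Int.toNat_natCast]
      rw [e] at h3
      rw [h3]
      constructor
      · rintro ⟨i, hi, hij⟩
        refine ⟨i, hi, ?_⟩
        have h4 := (Prod.ext_iff.1 hij).1
        simp only at h4
        have h5 : d * q = b i * q := by exact_mod_cast h4
        exact (Nat.eq_of_mul_eq_mul_right hq h5).symm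
      · rintro ⟨i, hi, rfl⟩
        exact ⟨i, hi, rfl⟩
  · rw [frequently_atTop]
    intro a
    obtain ⟨t, hta, n, hn, hLn, hcn⟩ := (frequently_atTop.1 hI1) a
    obtain ⟨X, hX, hnX, hnc⟩ := hn
    have hLt := hL1 t
    refine ⟨X, by omega, hX, ?_⟩
    have h1 : (I ∩ Set.Iio n).ncard ≤ (b '' I ∩ Set.Iio X).ncard := by
      rw [← (hbmono.injective.injOn (s := I ∩ Set.Iio n)).ncard_image]
      apply Set.ncard_le_ncard _ ((Set.finite_Iio _).inter_of_right _)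
      rintro _ ⟨i, ⟨hi, hin⟩, rfl⟩
      refine ⟨⟨i, hi, rfl⟩, ?_⟩
      exact hcount X i (by rw [← hnc]; exact hin)
    have h5 : 1 / c₀ * 2 ^ t ≤ ψ X := hL2 t X (by omega)
    have h6 : ((I ∩ Set.Iio n).ncard : ℝ) ≤ ((b '' I ∩ Set.Iio X).ncard : ℝ) := by exact_mod_cast h1
    have h7 : Real.log n ≤ 1 / c₀ * 2 ^ t * ((I ∩ Set.Iio n).ncard : ℝ) := by
      have e : 1 / c₀ * 2 ^ t * ((I ∩ Set.Iio n).ncard : ℝ) =
          1 / c₀ * (2 ^ t * ((I ∩ Set.Iio n).ncard : ℝ)) := by ring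
      rw [e]
      calc Real.log n = 1 / c₀ * (c₀ * Real.log n) := by field_simp
        _ ≤ _ := by gcongr
    calc Real.log (D ∩ Set.Iio X).ncard = Real.log n := by rw [hnc]
      _ ≤ 1 / c₀ * 2 ^ t * ((I ∩ Set.Iio n).ncard : ℝ) := h7
      _ ≤ ψ X * ((b '' I ∩ Set.Iio X).ncard : ℝ) := by
          apply mul_le_mul h5 h6 (Nat.cast_nonneg _)
          exact le_trans (by positivity) h5

/-- the iterates of `x ↦ 2 x - 1` -/
theorem iterate_eq (t : ℕ) : ∀ v : ℕ, (fun x : ℕ => 2 * x - 1)^[v] (t + 1) = 2 ^ v * t + 1 := by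
  intro v
  induction v with
  | zero => simp
  | succ v ih =>
    rw [Function.iterate_succ_apply', ih, pow_succ]
    have : 2 * (2 ^ v * t + 1) = 2 ^ v * 2 * t + 1 + 1 := by ring
    omega

/-- infinite exact patterns of times -/
theorem infinite_times (q a : ℕ) (hq : 1 ≤ q) (V : Set ℕ) (hV : V.Infinite)
    (hcop : ∀ v ∈ V, (2 ^ v * a + 1).Coprime q) (ψ : ℕ → ℝ) (hψ : Tendsto ψ atTop atTop)
    (𝒳 : Set ℕ) (h𝒳 : 𝒳.Infinite) :
    ∃ B ⊆ V, B.Infinite ∧ (∀ R : ℕ, {u : ℕ | u ≡ a + 1 [MOD q] ∧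
        ∀ v : ℕ, v ≤ R → (((fun x : ℕ => 2 * x - 1)^[v] u).Prime ↔ v ∈ B)}.Infinite) ∧
      ∃ᶠ X : ℕ in atTop, X ∈ 𝒳 ∧
        Real.log (V ∩ Set.Iio X).ncard ≤ ψ X * ((B ∩ Set.Iio X).ncard : ℝ) := by
  classical
  have hinj : Function.Injective (fun v : ℕ => 2 ^ v) := Nat.pow_right_injective (le_refl 2)
  have hncard : ∀ (V : Set ℕ) (X : ℕ), ((fun v : ℕ => 2 ^ v) '' V ∩ Set.Iio (2 ^ X)).ncard = (V ∩ Set.Iio X).ncard := by
    intro V X
    rw [← Set.ncard_image_of_injective (V ∩ Set.Iio X) hinj]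
    congr 1
    ext d
    constructor
    · rintro ⟨⟨v, hv, rfl⟩, hd⟩
      exact ⟨v, ⟨hv, (Nat.pow_lt_pow_iff_right (by norm_num)).1 hd⟩, rfl⟩
    · rintro ⟨v, ⟨hv, hvX⟩, rfl⟩
      exact ⟨⟨v, hv, rfl⟩, (Nat.pow_lt_pow_iff_right (by norm_num)).2 hvX⟩
  obtain ⟨B, hBD, hBinf, hB, hgr⟩ := infinite_patterns q a hq ((fun v : ℕ => 2 ^ v) '' V)
    (hV.image hinj.injOn) (by rintro _ ⟨v, _, rfl⟩; exact Nat.one_le_two_pow)
    (by rintro _ ⟨v, hv, rfl⟩; exact hcop v hv) (fun X => ψ (Nat.log 2 X))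
    (hψ.comp (tendsto_atTop.2 fun k => by
      filter_upwards [eventually_ge_atTop (2 ^ k)] with X hX
      exact Nat.le_log_of_pow_le (by norm_num) hX))
    ((fun v : ℕ => 2 ^ v) '' 𝒳) (h𝒳.image hinj.injOn)
  obtain ⟨B', hB'⟩ : ∃ B' : Set ℕ, B' = {v | 2 ^ v ∈ B} := ⟨_, rfl⟩
  have hBB : B = (fun v : ℕ => 2 ^ v) '' B' := by
    rw [hB']
    ext d
    constructor
    · intro hd
      obtain ⟨v, _, rfl⟩ := hBD hd
      exact ⟨v, hd, rfl⟩
    · rintro ⟨v, hv, rfl⟩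
      exact hv
  refine ⟨B', ?_, ?_, ?_, ?_⟩
  · intro v hv
    rw [hB'] at hv
    obtain ⟨w, hw, hwv⟩ := hBD hv
    rwa [← hinj hwv]
  · intro hfin
    apply hBinf
    rw [hBB]
    exact hfin.image _
  · intro R
    have hs : Set.InjOn (fun t : ℕ => t + 1) {t : ℕ | t ≡ a [MOD q] ∧
        ∀ d : ℕ, 1 ≤ d → d ≤ 2 ^ R → ((d * t + 1).Prime ↔ d ∈ B)} := by
      intro x _ y _ h
      simpa using h
    refine ((hB (2 ^ R)).image hs).mono ?_
    rintro _ ⟨t, ⟨ht1, ht2⟩, rfl⟩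
    refine ⟨ht1.add_right 1, fun v hv => ?_⟩
    rw [iterate_eq, ht2 (2 ^ v) Nat.one_le_two_pow (Nat.pow_le_pow_right (by norm_num) hv), hB']
    rfl
  · rw [frequently_atTop] at hgr ⊢
    intro k
    obtain ⟨X, hX, ⟨Y, hY, hYX⟩, h1⟩ := hgr (2 ^ k)
    have hYX' : 2 ^ Y = X := hYX
    subst hYX'
    refine ⟨Y, (Nat.pow_le_pow_iff_right (by norm_num)).1 hX, hY, ?_⟩
    rw [hncard, Nat.log_pow (by norm_num), hBB, hncard] at h1
    exact h1

end Pool.Agent.Helper54.SM
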