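import Mathlib
import Pool.Agent.Helper50.TS.Main
import Pool.Agent.Helper54.SM.Main

/-! Typical sets of multipliers contain long exact patterns (after `Pool.Agent.Helper50.TS.final`). -/

set_option autoImplicit false

open Finset Filter

namespace Pool.Agent.Helper54.SM

open Pool.Agent.Helper50.SP (Spread)
open Pool.Agent.Helper50.TS (Typical push typical')

/-- `t ≡ a (mod q)`, the `h t + 1`, `h ∈ H`, are prime, and they are the only primes `p ≤ max H t + 1` for which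
`(p - 1) / t` is a fraction `j / i` with `i, j ≤ R` -/
def Consec (q a R : ℕ) (H : Finset ℕ) (t : ℕ) : Prop :=
  t ≡ a [MOD q] ∧ (∀ h ∈ H, (h * t + 1).Prime) ∧
    ∀ p i j : ℕ, p.Prime → 1 ≤ i → i ≤ R → 1 ≤ j → j ≤ R → i * (p - 1) = j * t →
      (∃ h ∈ H, p ≤ h * t + 1) → ∃ h ∈ H, p = h * t + 1

/-- the number of the `t ≤ x` with this property -/
noncomputable def number (q a R : ℕ) (H : Finset ℕ) (x : ℝ) : ℕ :=
  Set.ncard {t : ℕ | (t : ℝ) ≤ x ∧ Consec q a R H t}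

theorem consec_of_exactly {q a R : ℕ} {P H : Finset ℕ} (hH : H ⊆ P) (hH2 : ∀ h ∈ H, ∀ p ∈ P, p ≤ h → p ∈ H)
    {t : ℕ} (ht : Exactly q a R P t) : Consec q a R H t := by
  obtain ⟨h1, h2, h3⟩ := ht
  refine ⟨h1, fun h hh => h2 h (hH hh), fun p i j hp hi1 hi2 hj1 hj2 he hp2 => ?_⟩
  obtain ⟨y, hy, hy2⟩ := hp2
  obtain ⟨z, hz, hz2⟩ := h3 p i j hp hi1 hi2 hj1 hj2 he
  have ht0 : 0 < t := by
    rcases Nat.eq_zero_or_pos t with h | h
    · rw [h, mul_zero, zero_add] at hz2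
      exact absurd hp (by rw [hz2]; exact Nat.not_prime_one)
    · exact h
  refine ⟨z, hH2 y hy z hz ?_, hz2⟩
  rw [hz2] at hy2
  exact Nat.le_of_mul_le_mul_right (by omega : z * t ≤ y * t) ht0

theorem count_le_number {q a R : ℕ} {P H : Finset ℕ} (hH : H ⊆ P) (hH2 : ∀ h ∈ H, ∀ p ∈ P, p ≤ h → p ∈ H)
    (x : ℝ) : count q a R P x ≤ number q a R H x := by
  unfold count number
  refine Set.ncard_le_ncard ?_ ?_
  · intro n hn
    exact ⟨hn.1, consec_of_exactly hH hH2 hn.2⟩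
  · apply (Set.finite_Iic ⌊x⌋₊).subset
    intro n hn
    exact Nat.le_floor hn.1

theorem final (ε : ℝ) (hε : 0 < ε) : ∃ C : ℝ, 0 < C ∧ ∀ m : ℕ, 1 ≤ m → ∃ B : ℕ, ∀ D : Finset ℕ,
    (4 + ε) * m + C ≤ Real.log D.card → (∀ d ∈ D, 1 ≤ d) →
    ∀ q a : ℕ, 1 ≤ q → (∀ d ∈ D, Nat.Coprime (d * a + 1) q) →
    (∀ R : ℕ, ∀ᶠ x : ℝ in atTop, Typical C m D (fun H => x / Real.log x ^ B ≤ number q a R H x)) ∧
    Typical C m D (fun H => ∀ R : ℕ, ∃ᶠ x : ℝ in atTop, x / Real.log x ^ B ≤ number q a R H x) := by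
  classical
  obtain ⟨C, hC, hmain⟩ := main ε hε
  refine ⟨12 * (C + 1) + 2, by linarith, fun m hm => ?_⟩
  obtain ⟨B, hB⟩ := hmain m hm
  refine ⟨B, fun V hV hV1 q a hq hcop => ?_⟩
  have hm' : (1 : ℝ) ≤ m := by exact_mod_cast hm
  obtain ⟨N₀, hN₀⟩ : ∃ N₀ : ℕ, N₀ = V.card / 2 := ⟨_, rfl⟩
  have hVpos : 0 < Real.log V.card := by nlinarith
  have hV0 : (1 : ℝ) < V.card := by
    by_contra hcon
    exact absurd hVpos (not_lt.2 (Real.log_nonpos (Nat.cast_nonneg _) (not_lt.1 hcon)))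
  have hV2 : 2 ≤ V.card := by exact_mod_cast hV0
  have hN1 : 1 ≤ N₀ := by omega
  have hN3 : V.card ≤ 3 * N₀ := by omega
  have hN3' : (V.card : ℝ) ≤ 3 * N₀ := by exact_mod_cast hN3
  have hN1' : (1 : ℝ) ≤ N₀ := by exact_mod_cast hN1
  have hlog3 : Real.log 3 ≤ 2 := by
    have := Real.log_le_sub_one_of_pos (show (0 : ℝ) < 3 by norm_num)
    linarith
  have hlogN : Real.log V.card ≤ 2 + Real.log N₀ := by
    calc Real.log V.card ≤ Real.log (3 * N₀) := Real.log_le_log (by linarith) hN3'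
      _ = Real.log 3 + Real.log N₀ := Real.log_mul (by norm_num) (by linarith)
      _ ≤ _ := by linarith
  have hV' : ∀ V' ⊆ V, N₀ ≤ V'.card →
      (∀ R : ℕ, ∀ᶠ x : ℝ in atTop, ∃ μ : Finset ℕ → ℝ, Spread C m V' μ ∧
        ∀ P, μ P ≠ 0 → x / Real.log x ^ B ≤ count q a R P x) ∧
      ∃ μ : Finset ℕ → ℝ, Spread C m V' μ ∧ ∀ R : ℕ, ∃ᶠ x : ℝ in atTop,
        ∀ P, μ P ≠ 0 → x / Real.log x ^ B ≤ count q a R P x := by
    intro V' hV' hN'
    refine hB V' ?_ (fun d hd => hV1 d (hV' hd)) q a hq (fun v hv => hcop v (hV' hv))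
    have h1 : Real.log N₀ ≤ Real.log V'.card := Real.log_le_log (by linarith) (by exact_mod_cast hN')
    linarith
  refine ⟨fun R => ?_, ?_⟩
  · have hev : ∀ᶠ x : ℝ in atTop, ∀ V' ∈ V.powerset.filter (fun V' => N₀ ≤ V'.card),
        ∃ μ : Finset ℕ → ℝ, Spread C m V' μ ∧ ∀ P, μ P ≠ 0 → x / Real.log x ^ B ≤ count q a R P x := by
      rw [Filter.eventually_all_finset]
      intro V' hV'2
      rw [mem_filter, mem_powerset] at hV'2
      exact (hV' V' hV'2.1 hV'2.2).1 R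
    filter_upwards [hev] with x hx
    refine typical' (C + 1) _ (by linarith) (by linarith) _ m hm V N₀ (fun V' hV'1 hV'2 => ?_) (by omega)
    obtain ⟨μ, hμ, hμ2⟩ := hx V' (by rw [mem_filter, mem_powerset]; exact ⟨hV'1, hV'2⟩)
    refine push C (C + 1) hC.le (by linarith) m V' μ hμ _ (fun P hP H hH hH2 => ?_)
    refine (hμ2 P hP).trans ?_
    exact_mod_cast count_le_number hH hH2 x
  · refine typical' (C + 1) _ (by linarith) (by linarith) _ m hm V N₀ (fun V' hV'1 hV'2 => ?_) (by omega)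
    obtain ⟨μ, hμ, hμ2⟩ := (hV' V' hV'1 hV'2).2
    refine push C (C + 1) hC.le (by linarith) m V' μ hμ _ (fun P hP H hH hH2 R => ?_)
    refine (hμ2 R).mono fun x hx => (hx P hP).trans ?_
    exact_mod_cast count_le_number hH hH2 x

end Pool.Agent.Helper54.SM
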